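import Pool.Agent.Q276.KZ.Stm
import Pool.Agent.Q276.CD.Sm

set_option autoImplicit false
set_option linter.all false

namespace Pool.Agent.Q65.KZ

open Pool.Agent.Q276.KZ Pool.Agent.Q276.CD Finset

/-- partial sums of the exponential at a point of `[-1, 0]` -/
theorem pe_alt (y : ℝ) (h0 : 0 ≤ y) (h1 : y ≤ 1) (p : ℕ) : ∀ a : ℕ,
    (Even a → y ^ a / (a.factorial : ℝ) ≤ pe (-y) p a ∧ pe (-y) p a ≤ 1) ∧
    (Odd a → 0 ≤ pe (-y) p a ∧ pe (-y) p a ≤ 1 - y ^ a / (a.factorial : ℝ)) := by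
  have hdec : ∀ a : ℕ, y ^ (a + 1) / ((a + 1).factorial : ℝ) ≤ y ^ a / (a.factorial : ℝ) := by
    intro a
    have hf : (0:ℝ) < (a.factorial : ℝ) := by exact_mod_cast a.factorial_pos
    rw [Nat.factorial_succ, pow_succ]
    push_cast
    rw [mul_comm ((a:ℝ) + 1), mul_div_mul_comm]
    refine mul_le_of_le_one_right (by positivity) ?_
    rw [div_le_one (by positivity)]
    have : (0:ℝ) ≤ a := Nat.cast_nonneg a
    linarith
  have hstep : ∀ a : ℕ, pe (-y) p (a + 1) = pe (-y) p a + (-y) ^ (a + 1) / ((a + 1).factorial : ℝ) := by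
    intro a
    unfold pe
    rw [Finset.sum_range_succ]
  intro a
  induction a with
  | zero =>
    refine ⟨fun _ => ?_, fun h => absurd h (by decide)⟩
    simp [pe]
  | succ a ih =>
    constructor
    · intro he
      have ho : Odd a := by
        rcases Nat.even_or_odd a with h | h
        · exact absurd he (Nat.not_even_iff_odd.mpr h.add_one)
        · exact h
      obtain ⟨i1, i2⟩ := ih.2 ho
      rw [hstep, he.neg_pow]
      have := hdec a
      constructor <;> linarith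
    · intro ho
      have he : Even a := by
        rcases Nat.even_or_odd a with h | h
        · exact h
        · exact absurd ho (Nat.not_odd_iff_even.mpr h.add_one)
      obtain ⟨i1, i2⟩ := ih.1 he
      rw [hstep, ho.neg_pow]
      have := hdec a
      rw [neg_div]
      constructor <;> linarith

theorem pe_range (k : ℝ) (h0 : 0 ≤ k) (h1 : k ≤ 1) (p a : ℕ) : 0 ≤ pe (k - 1) p a ∧ pe (k - 1) p a ≤ 1 := by
  have h := pe_alt (1 - k) (by linarith) (by linarith) p a
  rw [show -(1 - k) = k - 1 by ring] at h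
  have hnn : 0 ≤ (1 - k) ^ a / (a.factorial : ℝ) := by
    have : 0 ≤ 1 - k := by linarith
    positivity
  rcases Nat.even_or_odd a with he | ho
  · obtain ⟨i1, i2⟩ := h.1 he
    exact ⟨hnn.trans i1, i2⟩
  · obtain ⟨i1, i2⟩ := h.2 ho
    exact ⟨i1, by linarith⟩

theorem pe_zero (z : ℝ) (p : ℕ) : pe z p 0 = 1 := by simp [pe]

theorem pe_one (z : ℝ) (p : ℕ) : pe z p 1 = 1 + z := by
  simp [pe, Finset.sum_range_succ]

theorem pe_nonneg {z : ℝ} (hz : 0 ≤ z) (p a : ℕ) : 0 ≤ pe z p a :=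
  Finset.sum_nonneg fun i _ => by positivity

theorem pe_le_exp {z : ℝ} (hz : 0 ≤ z) (p a : ℕ) : pe z p a ≤ Real.exp z :=
  Real.sum_le_exp_of_nonneg hz _

theorem ek_le_exp {z : ℝ} (hz : 0 ≤ z) (p a : ℕ) : ek z p a ≤ Real.exp z := by
  refine le_trans ?_ (pe_le_exp hz p a)
  unfold ek pe
  exact Finset.single_le_sum (f := fun i => z ^ i / (i.factorial : ℝ))
    (fun i _ => by positivity) (Finset.mem_range.mpr (Nat.lt_succ_self a))

theorem t_LC : P_LC := by
  set h3 : ℕ → ℝ := fun j => (((j : ℝ) + 2) ^ 2 * rr ^ (j + 1)) * (101 / 100) ^ (j + 1) with hh3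
  set h4 : ℕ → ℝ := fun j => Real.exp 40 ^ 2 * (101 / 100) ^ (j + 1) with hh4
  have s3 : Summable fun j : ℕ => h3 j / (2:ℝ) ^ j := by
    have g1 := summable_pow_mul_geometric_of_norm_lt_one (R := ℝ) 2 (r := 303 / 500)
      (by rw [Real.norm_eq_abs]; norm_num [abs_of_pos])
    have g2 := (summable_nat_add_iff 2).mpr g1
    have g3 := g2.mul_left (rr * (101 / 100) / (303 / 500) ^ 2)
    refine g3.congr fun j => ?_
    simp only [hh3]
    unfold rr
    have e : ((303:ℝ) / 500) ^ j = (6 / 5) ^ j * (101 / 100) ^ j / 2 ^ j := by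
      rw [← mul_pow, ← div_pow]; norm_num
    push_cast
    rw [pow_add (303 / 500 : ℝ) j 2, e, pow_succ (6 / 5 : ℝ) j, pow_succ (101 / 100 : ℝ) j]
    field_simp
  have s4 : Summable fun j : ℕ => h4 j / (2:ℝ) ^ j := by
    have g1 : Summable fun j : ℕ => ((101:ℝ) / 200) ^ j :=
      summable_geometric_of_lt_one (by norm_num) (by norm_num)
    refine (g1.mul_left (Real.exp 40 ^ 2 * (101 / 100))).congr fun j => ?_
    simp only [hh4]
    have e : ((101:ℝ) / 200) ^ j = (101 / 100) ^ j / 2 ^ j := by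
      rw [← div_pow]; norm_num
    rw [e, pow_succ]
    ring
  have s5 : Summable fun j : ℕ => Real.exp 40 ^ 2 / (2:ℝ) ^ j := by
    have g1 : Summable fun j : ℕ => ((1:ℝ) / 2) ^ j :=
      summable_geometric_of_lt_one (by norm_num) (by norm_num)
    refine (g1.mul_left (Real.exp 40 ^ 2)).congr fun j => ?_
    rw [one_div, inv_pow]; ring
  set A3 := ∑' j : ℕ, h3 j / (2:ℝ) ^ j with hA3
  set A4 := ∑' j : ℕ, h4 j / (2:ℝ) ^ j with hA4
  set A5 := ∑' j : ℕ, Real.exp 40 ^ 2 / (2:ℝ) ^ j with hA5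
  have n3 : 0 ≤ A3 := tsum_nonneg fun j => by
    have := rr_pos
    simp only [hh3]; positivity
  have n4 : 0 ≤ A4 := tsum_nonneg fun j => by simp only [hh4]; positivity
  have n5 : 0 ≤ A5 := tsum_nonneg fun j => by positivity
  refine ⟨3 + A3 + A4 + A5, by linarith, fun p hp q hq1 hq2 k hk0 hk1 => ?_⟩
  have hp2 : 2 ≤ p := hp.two_le
  have hp2r : (2:ℝ) ≤ p := by exact_mod_cast hp2
  have hp0 : (0:ℝ) < p := by linarith
  have hip : 0 ≤ 1 / (p:ℝ) := by positivity
  have hip2 : 0 ≤ 1 / (p:ℝ) ^ 2 := by positivity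
  have hlog : q ≤ 1 + 2 * Real.log q := by
    have h1 := Real.one_sub_inv_le_log_of_pos (show 0 < q by linarith)
    have h2 : 0 ≤ Real.log q := Real.log_nonneg hq1
    have h3 : q * (1 - q⁻¹) ≤ q * Real.log q := mul_le_mul_of_nonneg_left h1 (by linarith)
    have h4 : q * (1 - q⁻¹) = q - 1 := by
      have : q ≠ 0 := by linarith
      field_simp
    have h5 : q * Real.log q ≤ 2 * Real.log q := mul_le_mul_of_nonneg_right (by linarith) h2
    linarith
  have hl0 : 0 ≤ Real.log q := Real.log_nonneg hq1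
  set x := q / (p:ℝ) with hx
  have hx0 : 0 ≤ x := by positivity
  have hx1 : x ≤ 101 / 200 := by
    rw [hx, div_le_iff₀ hp0]; linarith
  have hx2 : x ^ 2 ≤ 11 / 10 * (1 / (p:ℝ) ^ 2) := by
    rw [hx, div_pow, mul_one_div]
    refine div_le_div_of_nonneg_right ?_ (by positivity)
    have : q ^ 2 ≤ (101 / 100) ^ 2 := pow_le_pow_left₀ (by linarith) hq2 2
    linarith
  have hxb : x ≤ 1 / p + 2 * Real.log q / p := by
    rw [hx, ← add_div]
    exact div_le_div_of_nonneg_right hlog hp0.le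
  have hxp : ∀ a : ℕ, q ^ a / (p:ℝ) ^ a = x ^ a := fun a => by rw [hx, div_pow]
  have hgeo : HasSum (fun a : ℕ => x ^ a) (1 - x)⁻¹ := hasSum_geometric_of_lt_one hx0 (by linarith)
  have hr1 : (1 - x)⁻¹ ≤ 1 + x + 5 / 2 * x ^ 2 := by
    rw [inv_le_iff_one_le_mul₀ (by linarith)]
    nlinarith [mul_nonneg (sq_nonneg x) (show 0 ≤ 101 / 200 - x by linarith)]
  have hCge : 3 * (1 / (p:ℝ) ^ 2) ≤ (3 + A3 + A4 + A5) / (p:ℝ) ^ 2 := by
    rw [mul_one_div]
    exact div_le_div_of_nonneg_right (by linarith) (by positivity)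
  have hqpos : 0 < q := by linarith
  have hqa : ∀ j : ℕ, q ^ j ≤ (101 / 100) ^ j := fun j => pow_le_pow_left₀ hqpos.le hq2 j
  refine ⟨⟨?_, ?_⟩, ⟨?_, ?_⟩, ?_, ?_, ?_, ?_, ?_⟩
  · simp only [hxp]; exact hgeo.summable
  · simp only [hxp]
    rw [hgeo.tsum_eq]
    refine hr1.trans ?_
    refine le_trans ?_ (Real.add_one_le_exp _)
    linarith
  · -- summability
    refine Summable.of_nonneg_of_le (fun a => by positivity) (fun a => ?_) hgeo.summable
    obtain ⟨i1, i2⟩ := pe_range k hk0 hk1 p a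
    have : pe (k - 1) p a ^ 2 ≤ 1 := pow_le_one₀ i1 i2
    rw [← hxp, mul_div_assoc]
    exact mul_le_of_le_one_left (by positivity) this
  · have hle : ∀ a : ℕ, pe (k - 1) p a ^ 2 * q ^ a / (p:ℝ) ^ a ≤ x ^ a := by
      intro a
      obtain ⟨i1, i2⟩ := pe_range k hk0 hk1 p a
      have : pe (k - 1) p a ^ 2 ≤ 1 := pow_le_one₀ i1 i2
      rw [← hxp, mul_div_assoc]
      exact mul_le_of_le_one_left (by positivity) this
    have hs : Summable fun a : ℕ => pe (k - 1) p a ^ 2 * q ^ a / (p:ℝ) ^ a :=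
      Summable.of_nonneg_of_le (fun a => by positivity) hle hgeo.summable
    rw [← hs.sum_add_tsum_nat_add 2]
    have e1 : ∑ i ∈ range 2, pe (k - 1) p i ^ 2 * q ^ i / (p:ℝ) ^ i = 1 + k ^ 2 * x := by
      rw [Finset.sum_range_succ, Finset.sum_range_succ, Finset.sum_range_zero, pe_zero, pe_one, hx]
      simp only [pow_zero, pow_one]
      ring
    have e2 : ∑' i : ℕ, pe (k - 1) p (i + 2) ^ 2 * q ^ (i + 2) / (p:ℝ) ^ (i + 2) ≤ x ^ 2 * (1 - x)⁻¹ := by
      have g : HasSum (fun i : ℕ => x ^ 2 * x ^ i) (x ^ 2 * (1 - x)⁻¹) := hgeo.mul_left _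
      rw [← g.tsum_eq]
      refine Summable.tsum_le_tsum (fun i => ?_) ((summable_nat_add_iff 2).mpr hs) g.summable
      refine (hle (i + 2)).trans (le_of_eq ?_)
      rw [pow_add]; ring
    rw [e1]
    have e3 : (1 - x)⁻¹ ≤ 5 / 2 := by
      rw [inv_le_iff_one_le_mul₀ (by linarith)]
      linarith
    have e4 : x ^ 2 * (1 - x)⁻¹ ≤ x ^ 2 * (5 / 2) := mul_le_mul_of_nonneg_left e3 (by positivity)
    have e5 : k ^ 2 * x ≤ k ^ 2 / p + 2 * Real.log q / p := by
      have hk2 : k ^ 2 ≤ 1 := pow_le_one₀ hk0 hk1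
      have g1 : k ^ 2 * x ≤ k ^ 2 * (1 / p + 2 * Real.log q / p) :=
        mul_le_mul_of_nonneg_left hxb (by positivity)
      have g2 : k ^ 2 * (2 * Real.log q / p) ≤ 2 * Real.log q / p :=
        mul_le_of_le_one_left (by positivity) hk2
      have g3 : k ^ 2 * (1 / p + 2 * Real.log q / p) = k ^ 2 / p + k ^ 2 * (2 * Real.log q / p) := by
        ring
      linarith
    refine le_trans ?_ (Real.add_one_le_exp _)
    linarith
  · have g := loc_crude' (φ := fun j => tm 2 p j * q ^ j) (h := h3) (by simp [tm_zero])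
      (fun j => mul_nonneg (tm_nonneg _ _ _) (by positivity)) (fun j => ?_) s3 hp2
    · refine ⟨g.1, g.2.trans ?_⟩
      rw [Real.exp_le_exp, mul_one_div]
      exact div_le_div_of_nonneg_right (by linarith) hp0.le
    · simp only [hh3]
      unfold tm
      push_cast
      rw [add_assoc, one_add_one_eq_two]
      have := rr_pos
      exact mul_le_mul_of_nonneg_left (hqa (j + 1)) (by positivity)
  · have g := loc_crude' (φ := fun j => pe 40 p j ^ 2 * q ^ j) (h := h4) (by simp [pe_zero])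
      (fun j => by positivity) (fun j => ?_) s4 hp2
    · refine ⟨g.1, g.2.trans ?_⟩
      rw [Real.exp_le_exp, mul_one_div]
      exact div_le_div_of_nonneg_right (by linarith) hp0.le
    · simp only [hh4]
      have g1 := pow_le_pow_left₀ (pe_nonneg (by norm_num : (0:ℝ) ≤ 40) p (j + 1))
        (pe_le_exp (by norm_num : (0:ℝ) ≤ 40) p (j + 1)) 2
      exact mul_le_mul g1 (hqa (j + 1)) (by positivity) (by positivity)
  · have g := loc_crude' (φ := fun j => ek 40 p j ^ 2) (h := fun _ => Real.exp 40 ^ 2)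
      (by simp [ek_zero]) (fun j => by positivity) (fun j => ?_) s5 hp2
    · refine ⟨g.1, g.2.trans ?_⟩
      rw [Real.exp_le_exp, mul_one_div]
      exact div_le_div_of_nonneg_right (by linarith) hp0.le
    · exact pow_le_pow_left₀ (ek_nonneg (by norm_num : (0:ℝ) ≤ 40) p (j + 1))
        (ek_le_exp (by norm_num : (0:ℝ) ≤ 40) p (j + 1)) 2
  · have g := loc_exp k hp2
    rw [mul_one_div] at g
    exact g
  · have g := loc_exp (Real.sqrt rr * k) hp2
    have hs : Real.sqrt rr ^ 2 = rr := Real.sq_sqrt rr_pos.le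
    have e : ∀ j : ℕ, ek (Real.sqrt rr * k) p j ^ 2 / (p : ℝ) ^ j = ek k p j ^ 2 * rr ^ j / (p:ℝ) ^ j := by
      intro j
      unfold ek
      rw [div_pow, div_pow, mul_pow, mul_pow, ← pow_mul, mul_comm j 2, pow_mul (Real.sqrt rr), hs]
      ring
    simp only [e] at g
    refine ⟨g.1, g.2.trans (le_of_eq ?_)⟩
    rw [mul_pow, hs, mul_one_div]

end Pool.Agent.Q65.KZ
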