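import Pool.Agent.Q276.KZ.Stm
import Pool.Agent.Q276.CD.Sm
import Pool.Agent.Q65.KZ.LC

set_option autoImplicit false
set_option linter.all false

namespace Pool.Agent.Q65.KZ

open Pool.Agent.Q276.KZ Pool.Agent.Q276.CD Finset

/-! ## Local algebra of the blocks -/

open Classical in
theorem fQ_apply (b : ℕ → ℕ) (J : ℕ) (Q : ℕ → ℕ → ℝ) (n : ℕ) :
    fQ b J Q n = if n ∈ Nat.smoothNumbers (b (J + 1)) ∧ Ob 0 (b 0) n = 0 then
    mf (ek 1) n * ∏ j ∈ range (J + 1), Q j (Ob (b j) (b (j + 1)) n) else 0 := rfl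

theorem ek1_range (p a : ℕ) : 0 ≤ ek 1 p a ∧ ek 1 p a ≤ 1 :=
  ⟨ek_nonneg zero_le_one p a, (le_abs_self _).trans (ek_abs_le_one (by simp) p a)⟩

theorem mf_ek1_range (n : ℕ) : 0 ≤ mf (ek 1) n ∧ mf (ek 1) n ≤ 1 :=
  ⟨mf_nonneg (fun p j => (ek1_range p j).1) n,
    mf_le_one (fun p j => (ek1_range p j).1) (fun p j => (ek1_range p j).2) n⟩

theorem QE_abs (z : ℝ) (hz : |z| ≤ 1) (K : ℕ → ℕ) (j m : ℕ) : |QE z K j m| ≤ 1 := by
  unfold QE
  split_ifs
  · rw [abs_pow]; exact pow_le_one₀ (abs_nonneg _) hz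
  · simp

/-- `(10/K)^K K! ≤ 10^K` -/
theorem fac_le (K : ℕ) : (10 / (K : ℝ)) ^ K * ((K).factorial : ℝ) ≤ 10 ^ K := by
  rcases Nat.eq_zero_or_pos K with h | h
  · subst h; simp
  · have hK : (0:ℝ) < K := by exact_mod_cast h
    have h1 : ((K).factorial : ℝ) ≤ (K:ℝ) ^ K := by exact_mod_cast Nat.factorial_le_pow K
    calc (10 / (K : ℝ)) ^ K * ((K).factorial : ℝ) ≤ (10 / (K : ℝ)) ^ K * (K:ℝ) ^ K :=
          mul_le_mul_of_nonneg_left h1 (by positivity)
      _ = 10 ^ K := by rw [← mul_pow, div_mul_cancel₀ _ hK.ne']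

theorem QH_range (K : ℕ → ℕ) (j m : ℕ) : 0 ≤ QH K j m ∧ QH K j m ≤ 10 ^ K j := by
  unfold QH
  split_ifs
  · exact ⟨by positivity, fac_le (K j)⟩
  · exact ⟨le_rfl, by positivity⟩

/-- the coefficient in the middle block -/
theorem mid_le (K m : ℕ) (z : ℝ) (h1 : K ≤ m) (h2 : m ≤ 2 * K) :
    |(m.factorial : ℝ) * (10 / (K : ℝ)) ^ K * (z ^ (m - K) / ((m - K).factorial : ℝ))| ≤
      20 ^ K * |z| ^ (m - K) := by
  have hfm : (0:ℝ) < ((m - K).factorial : ℝ) := by exact_mod_cast Nat.factorial_pos _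
  rw [abs_mul, abs_mul, abs_div, abs_pow, abs_pow, abs_of_nonneg (show (0:ℝ) ≤ (m.factorial:ℝ) by positivity),
    abs_of_nonneg (show (0:ℝ) ≤ 10 / (K:ℝ) by positivity), abs_of_pos hfm]
  have h3 : (m.factorial : ℝ) / ((m - K).factorial : ℝ) ≤ (m:ℝ) ^ K := by
    have h4 : (m.factorial : ℝ) = ((m - K).factorial : ℝ) * (m.descFactorial K : ℝ) := by
      rw [← Nat.factorial_mul_descFactorial h1]; push_cast; ring
    rw [h4, mul_comm, mul_div_assoc, div_self hfm.ne', mul_one]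
    exact_mod_cast Nat.descFactorial_le_pow m K
  have h5 : (10 / (K : ℝ)) ^ K * (m:ℝ) ^ K ≤ 20 ^ K := by
    rw [← mul_pow]
    rcases Nat.eq_zero_or_pos K with h | h
    · subst h; simp
    · have hK : (0:ℝ) < K := by exact_mod_cast h
      have hm : (m:ℝ) ≤ 2 * K := by exact_mod_cast h2
      refine pow_le_pow_left₀ (by positivity) ?_ K
      rw [div_mul_eq_mul_div, div_le_iff₀ hK]
      linarith
  calc (m.factorial : ℝ) * (10 / (K:ℝ)) ^ K * (|z| ^ (m - K) / ((m - K).factorial : ℝ)) =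
      ((10 / (K:ℝ)) ^ K * ((m.factorial : ℝ) / ((m - K).factorial : ℝ))) * |z| ^ (m - K) := by ring
    _ ≤ ((10 / (K:ℝ)) ^ K * (m:ℝ) ^ K) * |z| ^ (m - K) := by gcongr
    _ ≤ 20 ^ K * |z| ^ (m - K) := mul_le_mul_of_nonneg_right h5 (by positivity)

theorem fQ_abs_le (b : ℕ → ℕ) (J : ℕ) (Q : ℕ → ℕ → ℝ) (n : ℕ) (A : ℕ → ℝ)
    (hA : ∀ j ∈ range (J + 1), ∀ m, |Q j m| ≤ A j) : |fQ b J Q n| ≤ ∏ j ∈ range (J + 1), A j := by
  classical
  have hA0 : ∀ j ∈ range (J + 1), 0 ≤ A j := fun j hj => (abs_nonneg _).trans (hA j hj 0)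
  rw [fQ_apply]
  split_ifs
  · rw [abs_mul, abs_prod, abs_of_nonneg (mf_ek1_range n).1]
    calc mf (ek 1) n * ∏ j ∈ range (J + 1), |Q j (Ob (b j) (b (j + 1)) n)| ≤
        1 * ∏ j ∈ range (J + 1), A j :=
          mul_le_mul (mf_ek1_range n).2 (prod_le_prod (fun _ _ => abs_nonneg _) fun j hj => hA j hj _)
            (prod_nonneg fun _ _ => abs_nonneg _) zero_le_one
      _ = _ := one_mul _
  · rw [abs_zero]; exact prod_nonneg hA0

open Classical in
theorem mu0_apply (B n : ℕ) :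
    mu0 B n = if n ∈ Nat.smoothNumbers B then ((ArithmeticFunction.moebius n : ℤ) : ℝ) else 0 := rfl

theorem mu0_abs (B n : ℕ) : |mu0 B n| ≤ 1 := by
  classical
  rw [mu0_apply]
  split_ifs
  · have := ArithmeticFunction.abs_moebius_le_one (n := n)
    exact_mod_cast this
  · simp

theorem uniq {B d e d' e' : ℕ} (hd : d ∈ Nat.smoothNumbers B) (he : Ob 0 B e = 0) (he0 : e ≠ 0)
    (hd' : d' ∈ Nat.smoothNumbers B) (he' : Ob 0 B e' = 0) (he0' : e' ≠ 0) (h : d * e = d' * e') : d = d' := by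
  have key : ∀ {d e d' e' : ℕ}, d ∈ Nat.smoothNumbers B → Ob 0 B e' = 0 → e' ≠ 0 →
      d * e = d' * e' → d ∣ d' := by
    intro d e d' e' hd he' he0' h
    have h1 : d ∣ d' * e' := ⟨e, h.symm⟩
    have hc : Nat.Coprime d e' := by
      rw [Nat.coprime_iff_gcd_eq_one]
      by_contra hne
      obtain ⟨p, hp, hpd⟩ := Nat.exists_prime_and_dvd hne
      have h2 := (sm_iff.mp hd).2 p hp (hpd.trans (Nat.gcd_dvd_left _ _))
      have h3 := Ob_pos (a := 0) (b := B) hp (hpd.trans (Nat.gcd_dvd_right _ _)) he0' ⟨Nat.zero_le _, h2⟩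
      omega
    exact hc.dvd_of_dvd_mul_right h1
  exact Nat.dvd_antisymm (key hd he' he0' h) (key hd' he he0 h.symm)

theorem t_FA : P_FA := by
  classical
  intro b J K z hz n
  have hX : ∀ c : Finset ℕ, ∀ j ∈ range (J + 1), ∀ m, |QX z K c j m| ≤ 10 ^ K j := by
    intro c j _ m
    unfold QX
    split_ifs
    · obtain ⟨h1, h2⟩ := QH_range K j m
      rw [abs_of_nonneg h1]; exact h2
    · exact (QE_abs z hz K j m).trans (one_le_pow₀ (by norm_num))
  have hL : ∀ i, ∀ j ∈ range (J + 1), ∀ m, |QL z K i j m| ≤ 20 ^ K j := by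
    intro i j _ m
    unfold QL
    split_ifs with h1 h2
    · subst h1
      refine (mid_le (K j) m z h2.1 h2.2).trans ?_
      exact mul_le_of_le_one_right (by positivity) (pow_le_one₀ (abs_nonneg _) hz)
    · rw [abs_zero]; positivity
    · exact (QE_abs z hz K j m).trans (one_le_pow₀ (by norm_num))
  have hE : ∀ m : ℕ, |fQ b J (QE z K) m| ≤ 1 := by
    intro m
    have := fQ_abs_le b J (QE z K) m (fun _ => 1) fun j _ m => QE_abs z hz K j m
    simpa using this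
  refine ⟨fun c => ?_, fun i _ => ?_, hE n, ?_⟩
  · rw [← prod_pow_eq_pow_sum]
    exact fQ_abs_le b J _ n _ (hX c)
  · rw [← prod_pow_eq_pow_sum]
    exact fQ_abs_le b J _ n _ (hL i)
  · rw [ArithmeticFunction.mul_apply]
    set S := n.divisorsAntidiagonal.filter fun x => mu0 (b 0) x.1 * fQ b J (QE z K) x.2 ≠ 0 with hS
    have h1 : ∑ x ∈ n.divisorsAntidiagonal, mu0 (b 0) x.1 * fQ b J (QE z K) x.2 =
        ∑ x ∈ S, mu0 (b 0) x.1 * fQ b J (QE z K) x.2 := by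
      rw [hS, sum_filter_ne_zero]
    rw [h1]
    have h2 : S.card ≤ 1 := by
      rw [card_le_one]
      rintro ⟨d, e⟩ hx ⟨d', e'⟩ hx'
      rw [hS, mem_filter, Nat.mem_divisorsAntidiagonal] at hx hx'
      obtain ⟨⟨hx1, hx2⟩, hx3⟩ := hx
      obtain ⟨⟨hy1, hy2⟩, hy3⟩ := hx'
      simp only at hx1 hx3 hy1 hy3
      have m1 := left_ne_zero_of_mul hx3
      have m2 := right_ne_zero_of_mul hx3
      have m3 := left_ne_zero_of_mul hy3
      have m4 := right_ne_zero_of_mul hy3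
      rw [mu0_apply] at m1 m3
      rw [fQ_apply] at m2 m4
      have c1 : d ∈ Nat.smoothNumbers (b 0) := by by_contra h; exact m1 (if_neg h)
      have c3 : d' ∈ Nat.smoothNumbers (b 0) := by by_contra h; exact m3 (if_neg h)
      have c2 : e ∈ Nat.smoothNumbers (b (J + 1)) ∧ Ob 0 (b 0) e = 0 := by
        by_contra h; exact m2 (if_neg h)
      have c4 : e' ∈ Nat.smoothNumbers (b (J + 1)) ∧ Ob 0 (b 0) e' = 0 := by
        by_contra h; exact m4 (if_neg h)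
      have hdd := uniq c1 c2.2 (sm_iff.mp c2.1).1 c3 c4.2 (sm_iff.mp c4.1).1 (hx1.trans hy1.symm)
      have hd0 : d ≠ 0 := (sm_iff.mp c1).1
      have hee : e = e' := by
        subst hdd
        exact Nat.eq_of_mul_eq_mul_left (Nat.pos_of_ne_zero hd0) (hx1.trans hy1.symm)
      rw [hdd, hee]
    refine (abs_sum_le_sum_abs _ _).trans ?_
    calc ∑ x ∈ S, |mu0 (b 0) x.1 * fQ b J (QE z K) x.2| ≤ ∑ x ∈ S, (1:ℝ) := by
          refine sum_le_sum fun x _ => ?_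
          rw [abs_mul]
          exact mul_le_one₀ (mu0_abs _ _) (abs_nonneg _) (hE _)
      _ = S.card := by simp
      _ ≤ 1 := by exact_mod_cast h2

end Pool.Agent.Q65.KZ
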