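import Pool.Agent.Q65.KZ.Blk

set_option autoImplicit false
set_option linter.all false

namespace Pool.Agent.Q65.KZ

open Pool.Agent.Q276.KZ Pool.Agent.Q276.CD Finset

/-! ## Blocks -/

theorem pow_Ob (z : ℝ) (u v n : ℕ) :
    z ^ Ob u v n = mf (fun p a => if u ≤ p ∧ p < v then z ^ a else 1) n := by
  rw [Ob_eq_sum, ← prod_pow_eq_pow_sum]
  unfold mf
  refine prod_congr rfl fun p _ => ?_
  show z ^ (if u ≤ p ∧ p < v then n.factorization p else 0) =
    if u ≤ p ∧ p < v then z ^ n.factorization p else 1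
  split_ifs
  · rfl
  · exact pow_zero z

theorem blk_mul (b : ℕ → ℕ) (j : ℕ) (φ ψ : ℕ → ℕ → ℝ) (n : ℕ) :
    blk b j φ n * blk b j ψ n = blk b j (fun p a => φ p a * ψ p a) n := by
  unfold blk
  rw [← mf_mul_fun]
  refine mf_congr fun p _ => ?_
  split_ifs
  · rfl
  · ring

theorem blk_sq (b : ℕ → ℕ) (j : ℕ) (φ : ℕ → ℕ → ℝ) (n : ℕ) :
    blk b j φ n ^ 2 = blk b j (fun p a => φ p a ^ 2) n := by
  rw [sq, blk_mul]
  congr 1
  funext p a
  ring

theorem blk_pow (b : ℕ → ℕ) (j : ℕ) (z : ℝ) (n : ℕ) :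
    z ^ Ob (b j) (b (j + 1)) n = blk b j (fun _ a => z ^ a) n := by
  rw [pow_Ob]; rfl

theorem ek_mul_pow (z : ℝ) (p a : ℕ) : ek 1 p a * z ^ a = ek z p a := by
  unfold ek; rw [one_pow]; ring

theorem blk_ek (b : ℕ → ℕ) (j : ℕ) (z : ℝ) (n : ℕ) :
    blk b j (ek 1) n * z ^ Ob (b j) (b (j + 1)) n = blk b j (ek z) n := by
  rw [blk_pow, blk_mul]
  congr 1
  funext p a
  exact ek_mul_pow z p a

theorem blk_nonneg (b : ℕ → ℕ) (j : ℕ) {φ : ℕ → ℕ → ℝ} (h : ∀ p a, 0 ≤ φ p a) (n : ℕ) :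
    0 ≤ blk b j φ n := by
  unfold blk
  refine mf_nonneg (fun p a => ?_) n
  split_ifs
  · exact h p a
  · exact zero_le_one

theorem blk_le (b : ℕ → ℕ) (j : ℕ) {φ ψ : ℕ → ℕ → ℝ} (h0 : ∀ p a, 0 ≤ φ p a)
    (h : ∀ p a, φ p a ≤ ψ p a) (n : ℕ) : blk b j φ n ≤ blk b j ψ n := by
  unfold blk
  refine mf_le (fun p a => ?_) n fun p _ => ?_
  · split_ifs
    · exact h0 p a
    · exact zero_le_one
  · split_ifs
    · exact h p _
    · exact le_rfl

section
variable {b : ℕ → ℕ} {J : ℕ}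

theorem mono_b (h : ∀ j ≤ J, b j ≤ b (j + 1)) {i j : ℕ} (hij : i ≤ j) (hj : j ≤ J + 1) : b i ≤ b j := by
  induction j with
  | zero => rw [Nat.le_zero.mp hij]
  | succ j ih =>
    rcases Nat.lt_or_ge i (j + 1) with h1 | h1
    · exact (ih (by omega) (by omega)).trans (h j (by omega))
    · have : i = j + 1 := by omega
      rw [this]

theorem blk_unique (h : ∀ j ≤ J, b j ≤ b (j + 1)) {p i j : ℕ} (hi : i ≤ J) (hj : j ≤ J)
    (h1 : b i ≤ p ∧ p < b (i + 1)) (h2 : b j ≤ p ∧ p < b (j + 1)) : i = j := by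
  rcases Nat.lt_trichotomy i j with hlt | heq | hgt
  · have := mono_b h (show i + 1 ≤ j by omega) (by omega)
    omega
  · exact heq
  · have := mono_b h (show j + 1 ≤ i by omega) (by omega)
    omega

theorem blk_exists : ∀ (J : ℕ) {p : ℕ}, b 0 ≤ p → p < b (J + 1) → ∃ j ≤ J, b j ≤ p ∧ p < b (j + 1) := by
  intro J
  induction J with
  | zero => intro p h1 h2; exact ⟨0, le_rfl, h1, h2⟩
  | succ J ih =>
    intro p h1 h2
    rcases Nat.lt_or_ge p (b (J + 1)) with h3 | h3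
    · obtain ⟨j, hj, h4⟩ := ih h1 h3
      exact ⟨j, by omega, h4⟩
    · exact ⟨J + 1, le_rfl, h3, h2⟩

theorem blk_prod (h : ∀ j ≤ J, b j ≤ b (j + 1)) {p i : ℕ} (hi : i ≤ J)
    (h1 : b i ≤ p ∧ p < b (i + 1)) (x : ℕ → ℝ) :
    ∏ j ∈ range (J + 1), (if b j ≤ p ∧ p < b (j + 1) then x j else 1) = x i := by
  rw [prod_eq_single i]
  · rw [if_pos h1]
  · intro j hj hne
    rw [if_neg]
    intro h2
    rw [mem_range] at hj
    exact hne (blk_unique h (by omega) hi h2 h1)
  · intro hc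
    exact absurd (mem_range.mpr (by omega)) hc

theorem mf_prod_fun {ι : Type*} (s : Finset ι) (φ : ι → ℕ → ℕ → ℝ) (n : ℕ) :
    mf (fun p a => ∏ i ∈ s, φ i p a) n = ∏ i ∈ s, mf (φ i) n := by
  unfold mf
  rw [prod_comm]

theorem mf_blocks (h : ∀ j ≤ J, b j ≤ b (j + 1)) {n : ℕ} (φ : ℕ → ℕ → ℝ)
    (hn : ∀ p, p.Prime → p ∣ n → b 0 ≤ p ∧ p < b (J + 1)) :
    mf φ n = ∏ j ∈ range (J + 1), blk b j φ n := by
  unfold blk
  rw [← mf_prod_fun]
  refine mf_congr fun p hp => ?_
  rw [Nat.mem_primeFactors] at hp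
  obtain ⟨h1, h2⟩ := hn p hp.1 hp.2.1
  obtain ⟨i, hi, h3⟩ := blk_exists J h1 h2
  exact (blk_prod h hi h3 (fun _ => φ p (n.factorization p))).symm

theorem low_nonneg (n : ℕ) : 0 ≤ low b (fun _ a => if a = 0 then 1 else 0) n := by
  unfold low
  refine mf_nonneg (fun p a => ?_) n
  show 0 ≤ (if p < b 0 then (if a = 0 then (1:ℝ) else 0) else 1)
  split_ifs <;> norm_num

theorem low_one {n : ℕ} (hn : ∀ p, p.Prime → p ∣ n → b 0 ≤ p) (ψ : ℕ → ℕ → ℝ) : low b ψ n = 1 := by
  unfold low mf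
  refine prod_eq_one fun p hp => ?_
  rw [Nat.mem_primeFactors] at hp
  have := hn p hp.1 hp.2.1
  show (if p < b 0 then ψ p (n.factorization p) else 1) = 1
  rw [if_neg (by omega)]

/-- the general bound -/
theorem fQ_sq_le (h : ∀ j ≤ J, b j ≤ b (j + 1)) (Q : ℕ → ℕ → ℝ) (n : ℕ) (B : ℕ → ℝ)
    (hB0 : ∀ j ∈ range (J + 1), 0 ≤ B j)
    (hB : ∀ j ∈ range (J + 1), (blk b j (ek 1) n * Q j (Ob (b j) (b (j + 1)) n)) ^ 2 ≤ B j) :
    fQ b J Q n ^ 2 ≤ low b (fun _ a => if a = 0 then 1 else 0) n * ∏ j ∈ range (J + 1), B j := by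
  classical
  rw [fQ_apply]
  split_ifs with hc
  · obtain ⟨h1, h2⟩ := hc
    have h3 := sm_iff.mp h1
    have hp : ∀ p, p.Prime → p ∣ n → b 0 ≤ p ∧ p < b (J + 1) := by
      intro p hp hpn
      refine ⟨?_, h3.2 p hp hpn⟩
      by_contra hlt
      have := Ob_pos (a := 0) (b := b 0) hp hpn h3.1 ⟨Nat.zero_le _, by omega⟩
      omega
    rw [low_one (fun p hpp hpn => (hp p hpp hpn).1), one_mul, mf_blocks h (ek 1) hp,
      ← prod_mul_distrib, ← prod_pow]
    exact prod_le_prod (fun _ _ => sq_nonneg _) hB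
  · rw [zero_pow two_ne_zero]
    exact mul_nonneg (low_nonneg n) (prod_nonneg hB0)

end

theorem ek_nn (z : ℝ) (hz : 0 ≤ z) (p a : ℕ) : 0 ≤ ek z p a := ek_nonneg hz p a

theorem t_FS : P_FS := by
  intro b J K k h hk0 hk1 n
  have hE : ∀ j m, 0 ≤ QE k K j m ∧ QE k K j m ≤ k ^ m := by
    intro j m
    unfold QE
    split_ifs
    · exact ⟨by positivity, le_rfl⟩
    · exact ⟨le_rfl, by positivity⟩
  have hbl : ∀ j, 0 ≤ blk b j (ek 1) n := fun j => blk_nonneg b j (ek_nn 1 zero_le_one) n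
  have hEb : ∀ j, (blk b j (ek 1) n * QE k K j (Ob (b j) (b (j + 1)) n)) ^ 2 ≤
      blk b j (fun p a => ek k p a ^ 2) n := by
    intro j
    rw [← blk_sq, ← blk_ek b j k n]
    obtain ⟨h1, h2⟩ := hE j (Ob (b j) (b (j + 1)) n)
    exact pow_le_pow_left₀ (mul_nonneg (hbl j) h1) (mul_le_mul_of_nonneg_left h2 (hbl j)) 2
  have hHb : ∀ j, (blk b j (ek 1) n * QH K j (Ob (b j) (b (j + 1)) n)) ^ 2 ≤
      (1 / 16) ^ K j * blk b j (fun p a => ek 40 p a ^ 2) n := by
    intro j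
    set m := Ob (b j) (b (j + 1)) n with hm
    have h1 : QH K j m ≤ (1 / 4) ^ K j * 40 ^ m := by
      unfold QH
      split_ifs with hmK
      · refine (fac_le (K j)).trans (le_of_eq ?_)
        rw [hmK, ← mul_pow]; norm_num
      · positivity
    have h2 : blk b j (ek 1) n * QH K j m ≤ (1 / 4) ^ K j * blk b j (ek 40) n := by
      rw [← blk_ek b j 40 n, ← hm]
      calc blk b j (ek 1) n * QH K j m ≤ blk b j (ek 1) n * ((1 / 4) ^ K j * 40 ^ m) :=
            mul_le_mul_of_nonneg_left h1 (hbl j)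
        _ = _ := by ring
    have h3 := pow_le_pow_left₀ (mul_nonneg (hbl j) (QH_range K j m).1) h2 2
    refine h3.trans (le_of_eq ?_)
    rw [mul_pow, blk_sq, ← pow_mul, mul_comm (K j) 2, pow_mul]
    norm_num
  have nn40 : ∀ j, 0 ≤ blk b j (fun p a => ek 40 p a ^ 2) n :=
    fun j => blk_nonneg b j (fun _ _ => sq_nonneg _) n
  have nnk : ∀ j, 0 ≤ blk b j (fun p a => ek k p a ^ 2) n :=
    fun j => blk_nonneg b j (fun _ _ => sq_nonneg _) n
  constructor
  · intro c
    refine fQ_sq_le h _ n _ (fun j _ => ?_) fun j _ => ?_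
    · split_ifs
      · exact mul_nonneg (by positivity) (nn40 j)
      · exact nnk j
    · unfold QX
      split_ifs
      · exact hHb j
      · exact hEb j
  · intro i _
    refine fQ_sq_le h _ n _ (fun j _ => ?_) fun j _ => ?_
    · split_ifs
      · exact mul_nonneg (by positivity) (nn40 j)
      · exact nnk j
    · unfold QL
      by_cases hji : j = i
      · rw [if_pos hji, if_pos hji]
        subst hji
        set m := Ob (b j) (b (j + 1)) n with hm
        set x := (if K j ≤ m ∧ m ≤ 2 * K j then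
          (m.factorial : ℝ) * (10 / (K j : ℝ)) ^ K j * (k ^ (m - K j) / ((m - K j).factorial : ℝ)) else 0)
          with hx
        have h1 : |x| ≤ (1 / 2) ^ K j * 40 ^ m := by
          rw [hx]
          split_ifs with hc
          · refine (mid_le (K j) m k hc.1 hc.2).trans ?_
            have h2 : |k| ^ (m - K j) ≤ 40 ^ (m - K j) := by
              rw [abs_of_nonneg hk0]
              exact pow_le_pow_left₀ hk0 (by linarith) _
            have h3 : (40:ℝ) ^ m = 40 ^ K j * 40 ^ (m - K j) := by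
              rw [← pow_add]; congr 1; omega
            rw [h3, ← mul_assoc, ← mul_pow]
            calc (20:ℝ) ^ K j * |k| ^ (m - K j) ≤ 20 ^ K j * 40 ^ (m - K j) :=
                  mul_le_mul_of_nonneg_left h2 (by positivity)
              _ = _ := by norm_num
          · rw [abs_zero]; positivity
        have h2 : |blk b j (ek 1) n * x| ≤ (1 / 2) ^ K j * blk b j (ek 40) n := by
          rw [← blk_ek b j 40 n, ← hm, abs_mul, abs_of_nonneg (hbl j)]
          calc blk b j (ek 1) n * |x| ≤ blk b j (ek 1) n * ((1 / 2) ^ K j * 40 ^ m) :=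
                mul_le_mul_of_nonneg_left h1 (hbl j)
            _ = _ := by ring
        have h3 := pow_le_pow_left₀ (abs_nonneg _) h2 2
        rw [sq_abs] at h3
        refine h3.trans (le_of_eq ?_)
        rw [mul_pow, blk_sq, ← pow_mul, mul_comm (K j) 2, pow_mul]
        norm_num
      · rw [if_neg hji, if_neg hji]
        exact hEb j

/-! ## Divisor sums -/

theorem sum_div_mf (φ : ℕ → ℕ → ℝ) (h0 : ∀ p, φ p 0 = 1) {m : ℕ} (hm : m ≠ 0) :
    ∑ d ∈ m.divisors, mf φ d = mf (fun p a => ∑ i ∈ range (a + 1), φ p i) m := by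
  classical
  set Φ : ℕ → ℕ → ℝ := fun p a => ∑ i ∈ range (a + 1), φ p i with hΦ
  have hΦ0 : ∀ p, Φ p 0 = 1 := fun p => by simp [hΦ, h0]
  have mk : ∀ ψ : ℕ → ℕ → ℝ, ∃ f : ArithmeticFunction ℝ, f.IsMultiplicative ∧ ∀ n, n ≠ 0 → f n = mf ψ n := by
    intro ψ
    refine ⟨⟨fun n => if n = 0 then 0 else mf ψ n, by simp⟩, ⟨?_, ?_⟩, fun n hn => ?_⟩
    · show (if (1:ℕ) = 0 then (0:ℝ) else mf ψ 1) = 1
      rw [if_neg one_ne_zero, mf_one]
    · intro m n hmn
      show (if m * n = 0 then (0:ℝ) else mf ψ (m * n)) = (if m = 0 then 0 else mf ψ m) *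
        (if n = 0 then 0 else mf ψ n)
      by_cases h1 : m = 0
      · simp [h1]
      · by_cases h2 : n = 0
        · simp [h2]
        · rw [if_neg h1, if_neg h2, if_neg (mul_ne_zero h1 h2), mf_mul ψ hmn]
    · show (if n = 0 then (0:ℝ) else mf ψ n) = mf ψ n
      rw [if_neg hn]
  obtain ⟨f, hf, hf1⟩ := mk φ
  obtain ⟨g, hg, hg1⟩ := mk Φ
  have hfz : (f * ((ArithmeticFunction.zeta : ArithmeticFunction ℕ) : ArithmeticFunction ℝ)).IsMultiplicative :=
    hf.mul ArithmeticFunction.isMultiplicative_zeta.natCast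
  have heq : f * ((ArithmeticFunction.zeta : ArithmeticFunction ℕ) : ArithmeticFunction ℝ) = g := by
    rw [ArithmeticFunction.IsMultiplicative.eq_iff_eq_on_prime_powers _ hfz _ hg]
    intro p i hp
    rw [ArithmeticFunction.coe_mul_zeta_apply, Nat.sum_divisors_prime_pow hp,
      hg1 _ (pow_ne_zero _ hp.ne_zero), mf_prime_pow hp (hΦ0 p)]
    refine sum_congr rfl fun j _ => ?_
    rw [hf1 _ (pow_ne_zero _ hp.ne_zero), mf_prime_pow hp (h0 p)]
  rw [← hg1 m hm, ← heq, ArithmeticFunction.coe_mul_zeta_apply]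
  refine sum_congr rfl fun d hd => ?_
  rw [hf1]
  rintro rfl
  rw [Nat.mem_divisors] at hd
  exact hm (Nat.eq_zero_of_zero_dvd hd.1)

theorem prt_fac (u v n : ℕ) (q : ℕ) : (prt u v n).factorization q =
    if u ≤ q ∧ q < v then n.factorization q else 0 := by
  classical
  unfold prt
  rw [Nat.factorization_prod]
  · have h1 : ∀ p ∈ n.primeFactors.filter (fun p => u ≤ p ∧ p < v),
        (p ^ n.factorization p).factorization = Finsupp.single p (n.factorization p) := by
      intro p hp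
      rw [mem_filter, Nat.mem_primeFactors] at hp
      rw [hp.1.1.factorization_pow]
    rw [sum_congr rfl h1, Finsupp.finset_sum_apply]
    simp only [Finsupp.single_apply]
    rw [sum_ite_eq']
    by_cases hq : u ≤ q ∧ q < v
    · rw [if_pos hq]
      by_cases h2 : q ∈ n.primeFactors
      · rw [if_pos (mem_filter.mpr ⟨h2, hq⟩)]
      · rw [if_neg (fun h => h2 (mem_filter.mp h).1)]
        rw [← Nat.support_factorization, Finsupp.notMem_support_iff] at h2
        exact h2.symm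
    · rw [if_neg hq]
      refine if_neg ?_
      intro h
      exact hq (mem_filter.mp h).2
  · intro p hp
    rw [mem_filter, Nat.mem_primeFactors] at hp
    exact pow_ne_zero _ hp.1.1.ne_zero

theorem prt_ne (u v n : ℕ) : prt u v n ≠ 0 := by
  unfold prt
  refine prod_ne_zero_iff.mpr fun p hp => ?_
  rw [mem_filter, Nat.mem_primeFactors] at hp
  exact pow_ne_zero _ hp.1.1.ne_zero

theorem prt_dvd {u v n : ℕ} (hn : n ≠ 0) : prt u v n ∣ n := by
  rw [← Nat.factorization_le_iff_dvd (prt_ne u v n) hn]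
  intro q
  rw [prt_fac]
  split_ifs
  · exact le_rfl
  · exact Nat.zero_le _

theorem prt_prime {u v n p : ℕ} (hp : p.Prime) (hd : p ∣ prt u v n) : u ≤ p ∧ p < v := by
  have h1 : (prt u v n).factorization p ≠ 0 := by
    have := (hp.dvd_iff_one_le_factorization (prt_ne u v n)).mp hd
    omega
  rw [prt_fac] at h1
  by_contra hc
  exact h1 (if_neg hc)

theorem mf_prt (u v n : ℕ) (ψ : ℕ → ℕ → ℝ) :
    mf ψ (prt u v n) = mf (fun p a => if u ≤ p ∧ p < v then ψ p a else 1) n := by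
  classical
  unfold mf
  rw [← prod_filter]
  have h1 : (prt u v n).primeFactors = n.primeFactors.filter (fun p => u ≤ p ∧ p < v) := by
    ext p
    rw [← Nat.support_factorization, Finsupp.mem_support_iff, prt_fac, mem_filter,
      ← Nat.support_factorization, Finsupp.mem_support_iff]
    by_cases hq : u ≤ p ∧ p < v
    · rw [if_pos hq]; exact ⟨fun h => ⟨h, hq⟩, fun h => h.1⟩
    · rw [if_neg hq]; exact ⟨fun h => absurd rfl h, fun h => absurd h.2 hq⟩
  rw [h1]
  refine prod_congr rfl fun p hp => ?_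
  rw [prt_fac, if_pos (mem_filter.mp hp).2]

theorem mf_ek_Ob {u v n d : ℕ} (z : ℝ) (hd : d ∣ prt u v n) :
    mf (ek 1) d * z ^ Ob u v d = mf (ek z) d := by
  rw [pow_Ob, ← mf_mul_fun]
  refine mf_congr fun p hp => ?_
  rw [Nat.mem_primeFactors] at hp
  rw [if_pos (prt_prime hp.1 (hp.2.1.trans hd)), ek_mul_pow]

theorem sum_ek (b : ℕ → ℕ) (j n : ℕ) (z : ℝ) :
    ∑ d ∈ (prt (b j) (b (j + 1)) n).divisors, mf (ek z) d = blk b j (pe z) n := by
  rw [sum_div_mf (ek z) (ek_zero z) (prt_ne _ _ _), mf_prt]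
  rfl

theorem blk_low (b : ℕ → ℕ) (j n : ℕ) (hn : n ≠ 0) (z : ℝ) (K : ℕ → ℕ)
    (h : Ob (b j) (b (j + 1)) n ≤ K j) :
    ∑ d ∈ (prt (b j) (b (j + 1)) n).divisors, mf (ek 1) d * QE z K j (Ob (b j) (b (j + 1)) d) =
      blk b j (pe z) n := by
  rw [← sum_ek]
  refine sum_congr rfl fun d hd => ?_
  rw [Nat.mem_divisors] at hd
  have h1 := Ob_le_of_dvd (b j) (b (j + 1)) (hd.1.trans (prt_dvd hn)) hn
  unfold QE
  rw [if_pos (h1.trans h), mf_ek_Ob z hd.1]

theorem t_GSG (hF : P_FAC) : P_GSG := by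
  intro b J K k h n hn hO
  rw [hF b J _ h n hn]
  refine prod_congr rfl fun j hj => ?_
  rw [mem_range] at hj
  exact blk_low b j n hn (k - 1) K (hO j (by omega))

theorem t_GS (hF : P_FAC) : P_GS := by
  intro b J K k c h hk0 hk1 n hn
  rw [hF b J _ h n hn, ← prod_pow]
  refine prod_le_prod (fun _ _ => sq_nonneg _) fun j _ => ?_
  have hz : |k - 1| ≤ 1 := by rw [abs_le]; constructor <;> linarith
  have hrr := one_le_rr
  have hrr0 := rr_pos
  unfold QX
  split_ifs with hc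
  · -- the power
    have h0 : 0 ≤ ∑ d ∈ (prt (b j) (b (j + 1)) n).divisors,
        mf (ek 1) d * QH K j (Ob (b j) (b (j + 1)) d) :=
      sum_nonneg fun d _ => mul_nonneg (mf_ek1_range d).1 (QH_range K j _).1
    have h1 : ∑ d ∈ (prt (b j) (b (j + 1)) n).divisors,
        mf (ek 1) d * QH K j (Ob (b j) (b (j + 1)) d) ≤ (1 / 4) ^ K j * blk b j (pe 40) n := by
      rw [← sum_ek, mul_sum]
      refine sum_le_sum fun d hd => ?_
      rw [Nat.mem_divisors] at hd
      rw [← mf_ek_Ob 40 hd.1]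
      set m := Ob (b j) (b (j + 1)) d with hm
      have h2 : QH K j m ≤ (1 / 4) ^ K j * 40 ^ m := by
        unfold QH
        split_ifs with hmK
        · refine (fac_le (K j)).trans (le_of_eq ?_)
          rw [hmK, ← mul_pow]; norm_num
        · positivity
      calc mf (ek 1) d * QH K j m ≤ mf (ek 1) d * ((1 / 4) ^ K j * 40 ^ m) :=
            mul_le_mul_of_nonneg_left h2 (mf_ek1_range d).1
        _ = _ := by ring
    refine (pow_le_pow_left₀ h0 h1 2).trans (le_of_eq ?_)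
    rw [mul_pow, blk_sq, ← pow_mul, mul_comm (K j) 2, pow_mul]
    norm_num
  · have hnn1 : 0 ≤ blk b j (fun p a => pe (k - 1) p a ^ 2) n :=
      blk_nonneg b j (fun _ _ => sq_nonneg _) n
    have hnn2 : 0 ≤ rr⁻¹ ^ K j * blk b j (tm 2) n :=
      mul_nonneg (by positivity) (blk_nonneg b j (fun p a => tm_nonneg 2 p a) n)
    rcases Nat.lt_or_ge (K j) (Ob (b j) (b (j + 1)) n) with hO | hO
    · have h1 : |∑ d ∈ (prt (b j) (b (j + 1)) n).divisors,
          mf (ek 1) d * QE (k - 1) K j (Ob (b j) (b (j + 1)) d)| ≤ blk b j (fun _ a => (a:ℝ) + 1) n := by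
        refine (abs_sum_le_sum_abs _ _).trans ?_
        have h2 : ∑ d ∈ (prt (b j) (b (j + 1)) n).divisors,
            |mf (ek 1) d * QE (k - 1) K j (Ob (b j) (b (j + 1)) d)| ≤ blk b j (pe 1) n := by
          rw [← sum_ek]
          refine sum_le_sum fun d _ => ?_
          rw [abs_mul, abs_of_nonneg (mf_ek1_range d).1]
          exact mul_le_of_le_one_right (mf_ek1_range d).1 (QE_abs _ hz K j _)
        refine h2.trans (blk_le b j (fun p a => pe_nonneg zero_le_one p a) (fun p a => ?_) n)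
        unfold pe
        calc ∑ i ∈ range (a + 1), (1:ℝ) ^ i / (i.factorial : ℝ) ≤ ∑ i ∈ range (a + 1), (1:ℝ) := by
              refine sum_le_sum fun i _ => ?_
              rw [one_pow, div_le_one (by positivity)]
              exact_mod_cast Nat.one_le_iff_ne_zero.mpr i.factorial_ne_zero
          _ = (a:ℝ) + 1 := by simp
      have h3 := pow_le_pow_left₀ (abs_nonneg _) h1 2
      rw [sq_abs, blk_sq] at h3
      refine h3.trans ?_
      have h4 : blk b j (tm 2) n = blk b j (fun _ a => ((a:ℝ) + 1) ^ 2) n *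
          rr ^ Ob (b j) (b (j + 1)) n := by
        rw [blk_pow, blk_mul]
        rfl
      have h5 : 1 ≤ rr⁻¹ ^ K j * rr ^ Ob (b j) (b (j + 1)) n := by
        rw [inv_pow, inv_mul_eq_div, one_le_div (by positivity)]
        exact pow_le_pow_right₀ hrr hO.le
      have h6 : 0 ≤ blk b j (fun _ a => ((a:ℝ) + 1) ^ 2) n :=
        blk_nonneg b j (fun _ _ => sq_nonneg _) n
      have h7 : blk b j (fun _ a => ((a:ℝ) + 1) ^ 2) n ≤ rr⁻¹ ^ K j * blk b j (tm 2) n := by
        rw [h4]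
        calc blk b j (fun _ a => ((a:ℝ) + 1) ^ 2) n =
            blk b j (fun _ a => ((a:ℝ) + 1) ^ 2) n * 1 := (mul_one _).symm
          _ ≤ blk b j (fun _ a => ((a:ℝ) + 1) ^ 2) n *
              (rr⁻¹ ^ K j * rr ^ Ob (b j) (b (j + 1)) n) := mul_le_mul_of_nonneg_left h5 h6
          _ = _ := by ring
      linarith
    · rw [blk_low b j n hn (k - 1) K hO, blk_sq]
      linarith

end Pool.Agent.Q65.KZ
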