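import Pool.Agent.Q65.KZ.Fs

set_option autoImplicit false
set_option linter.all false

namespace Pool.Agent.Q65.KZ

open Pool.Agent.Q276.KZ Pool.Agent.Q276.CD Finset

theorem sf_sum {ι : Type*} (N : ℕ) (X : Finset ι) (f : ι → ℕ → ℝ) :
    sf N (fun n => ∑ x ∈ X, f x n) = fun n => ∑ x ∈ X, sf N (f x) n := by
  funext n
  unfold sf
  by_cases hn : n ∈ Nat.smoothNumbers N
  · rw [Set.indicator_of_mem hn, Finset.sum_div]
    refine Finset.sum_congr rfl fun x _ => ?_
    rw [Set.indicator_of_mem hn]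
  · rw [Set.indicator_of_notMem hn]
    exact (Finset.sum_eq_zero fun x _ => Set.indicator_of_notMem hn _).symm

theorem Sb_sum {ι : Type*} {N : ℕ} {X : Finset ι} {f : ι → ℕ → ℝ} (h : ∀ x ∈ X, Sb N (f x)) :
    Sb N (fun n => ∑ x ∈ X, f x n) := by
  unfold Sb at *
  rw [sf_sum]
  exact summable_sum h

theorem SS_sum {ι : Type*} {N : ℕ} {X : Finset ι} {f : ι → ℕ → ℝ} (h : ∀ x ∈ X, Sb N (f x)) :
    SS N (fun n => ∑ x ∈ X, f x n) = ∑ x ∈ X, SS N (f x) := by
  unfold SS
  rw [sf_sum]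
  exact Summable.tsum_finsetSum h

theorem abs_sf (N : ℕ) (f : ℕ → ℝ) (n : ℕ) : |sf N f n| = sf N (fun n => |f n|) n := by
  unfold sf
  by_cases hn : n ∈ Nat.smoothNumbers N
  · rw [Set.indicator_of_mem hn, Set.indicator_of_mem hn, abs_div, Nat.abs_cast]
  · rw [Set.indicator_of_notMem hn, Set.indicator_of_notMem hn, abs_zero]

theorem prod_blocks {b : ℕ → ℕ} (g : ℕ → ℝ) : ∀ J : ℕ, (∀ j ≤ J, b j ≤ b (j + 1)) →
    ∏ p ∈ Nat.primesBelow (b (J + 1)), g p =
      (∏ p ∈ Nat.primesBelow (b 0), g p) * ∏ j ∈ range (J + 1), ∏ p ∈ bp b j, g p := by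
  have step : ∀ j : ℕ, b j ≤ b (j + 1) → ∏ p ∈ Nat.primesBelow (b (j + 1)), g p =
      (∏ p ∈ Nat.primesBelow (b j), g p) * ∏ p ∈ bp b j, g p := by
    intro j hj
    rw [← Finset.prod_filter_mul_prod_filter_not (Nat.primesBelow (b (j + 1))) (fun p => b j ≤ p), mul_comm]
    congr 1
    refine Finset.prod_congr ?_ fun _ _ => rfl
    ext p
    rw [mem_filter, Nat.mem_primesBelow, Nat.mem_primesBelow]
    constructor
    · rintro ⟨⟨h1, h2⟩, h3⟩; exact ⟨by omega, h2⟩
    · rintro ⟨h1, h2⟩; exact ⟨⟨by omega, h2⟩, by omega⟩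
  intro J
  induction J with
  | zero =>
    intro h
    rw [step 0 (h 0 le_rfl), Finset.prod_range_one]
  | succ J ih =>
    intro h
    rw [step (J + 1) (h (J + 1) le_rfl), ih fun j hj => h j (by omega), Finset.prod_range_succ _ (J + 1)]
    ring

theorem t_GL : P_GL := by
  classical
  intro b J O ψ w φ h hψ0 hφ0 hψs hφs
  set N := b (J + 1) with hN
  set X : Finset (Fin (J + 1) → ℕ) := Fintype.piFinset fun _ => O with hX
  set Φ : (Fin (J + 1) → ℕ) → ℕ → ℕ → ℝ := fun x p a => (if p < b 0 then ψ p a else 1) *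
    ∏ j : Fin (J + 1), (if b j ≤ p ∧ p < b (j + 1) then φ j (x j) p a else 1) with hΦ
  set W : (Fin (J + 1) → ℕ) → ℝ := fun x => ∏ j : Fin (J + 1), w j (x j) with hW
  -- expansion
  have hexp : ∀ n, low b ψ n * ∏ j ∈ range (J + 1), ∑ o ∈ O, w j o * blk b j (φ j o) n =
      ∑ x ∈ X, W x * mf (Φ x) n := by
    intro n
    rw [Finset.prod_range, Finset.prod_univ_sum, Finset.mul_sum]
    refine Finset.sum_congr rfl fun x _ => ?_
    rw [Finset.prod_mul_distrib]
    have h1 : mf (Φ x) n = low b ψ n * ∏ j : Fin (J + 1), blk b j (φ j (x j)) n := by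
      simp only [hΦ]
      rw [mf_mul_fun, mf_prod_fun]
      rfl
    rw [h1]
    ring
  -- local values
  have hlowp : ∀ x p, p < b 0 → Φ x p = ψ p := by
    intro x p hp
    funext a
    simp only [hΦ]
    rw [if_pos hp]
    have : ∏ j : Fin (J + 1), (if b j ≤ p ∧ p < b (j + 1) then φ j (x j) p a else 1) = 1 := by
      refine Finset.prod_eq_one fun j _ => ?_
      rw [if_neg]
      have := mono_b h (Nat.zero_le (j : ℕ)) (by have := j.2; omega)
      omega
    rw [this, mul_one]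
  have hblkp : ∀ x p (i : Fin (J + 1)), b i ≤ p → p < b (i + 1) → Φ x p = φ i (x i) p := by
    intro x p i h1 h2
    funext a
    simp only [hΦ]
    have h3 := mono_b h (Nat.zero_le (i : ℕ)) (by have := i.2; omega)
    rw [if_neg (by omega), one_mul, Finset.prod_eq_single i]
    · rw [if_pos ⟨h1, h2⟩]
    · intro j _ hne
      rw [if_neg]
      intro h4
      apply hne
      apply Fin.ext
      exact blk_unique h (by have := j.2; omega) (by have := i.2; omega) h4 ⟨h1, h2⟩
    · intro hc; exact absurd (Finset.mem_univ i) hc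
  have htop : ∀ x p, N ≤ p → Φ x p = fun _ => 1 := by
    intro x p hp
    funext a
    simp only [hΦ]
    have h3 := mono_b h (Nat.zero_le (J + 1)) le_rfl
    rw [if_neg (by omega), one_mul]
    refine Finset.prod_eq_one fun j _ => ?_
    rw [if_neg]
    have := mono_b h (show (j : ℕ) + 1 ≤ J + 1 by have := j.2; omega) le_rfl
    omega
  have hΦ0 : ∀ x p, Φ x p 0 = 1 := by
    intro x p
    simp only [hΦ, hψ0, hφ0]
    simp
  have hΦs : ∀ x ∈ X, ∀ p : ℕ, p.Prime → Summable fun a : ℕ => |Φ x p a| / (p : ℝ) ^ a := by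
    intro x hx p hp
    rcases Nat.lt_or_ge p (b 0) with h1 | h1
    · rw [hlowp x p h1]
      exact hψs p hp h1
    · rcases Nat.lt_or_ge p N with h2 | h2
      · obtain ⟨i, hi, h3⟩ := blk_exists J h1 h2
        have h4 := hblkp x p ⟨i, by omega⟩ h3.1 h3.2
        rw [h4]
        refine hφs i hi _ (Fintype.mem_piFinset.mp hx _) p ?_
        unfold bp
        rw [mem_filter, Nat.mem_primesBelow]
        exact ⟨⟨h3.2, hp⟩, h3.1⟩
      · rw [htop x p h2]
        have hp2 : (2:ℝ) ≤ p := by exact_mod_cast hp.two_le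
        have : (fun a : ℕ => |(1:ℝ)| / (p : ℝ) ^ a) = fun a : ℕ => (1 / (p:ℝ)) ^ a := by
          funext a
          rw [abs_one, div_pow, one_pow]
        rw [this]
        exact summable_geometric_of_lt_one (by positivity)
          (by rw [div_lt_one (by linarith)]; linarith)
  have hep : ∀ x ∈ X, Sb N (fun n => |mf (Φ x) n|) ∧ SS N (mf (Φ x)) =
      (∏ p ∈ Nat.primesBelow (b 0), ∑' a : ℕ, ψ p a / (p : ℝ) ^ a) *
        ∏ j : Fin (J + 1), ∏ p ∈ bp b j, ∑' a : ℕ, φ j (x j) p a / (p : ℝ) ^ a := by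
    intro x hx
    obtain ⟨e1, e2⟩ := ep_main (hΦ0 x) (hΦs x hx) N
    refine ⟨?_, ?_⟩
    · unfold Sb
      refine e1.congr fun n => ?_
      exact abs_sf N _ n
    · rw [e2, hN, prod_blocks _ J h, Finset.prod_range]
      congr 1
      · refine Finset.prod_congr rfl fun p hp => ?_
        rw [hlowp x p (Nat.mem_primesBelow.mp hp).1]
      · refine Finset.prod_congr rfl fun j _ => Finset.prod_congr rfl fun p hp => ?_
        unfold bp at hp
        rw [mem_filter, Nat.mem_primesBelow] at hp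
        rw [hblkp x p j hp.2 hp.1.1]
  have hSb1 : ∀ x ∈ X, Sb N (fun n => W x * mf (Φ x) n) := by
    intro x hx
    refine Sb_of_le (g := fun n => |W x| * |mf (Φ x) n|) ((hep x hx).1.const_mul _) fun n _ => ?_
    rw [abs_mul]
  constructor
  · refine Sb_of_le (g := fun n => ∑ x ∈ X, |W x| * |mf (Φ x) n|)
      (Sb_sum fun x hx => (hep x hx).1.const_mul _) fun n _ => ?_
    rw [abs_abs, hexp]
    refine (Finset.abs_sum_le_sum_abs _ _).trans (Finset.sum_le_sum fun x _ => ?_)
    rw [abs_mul]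
  · have h1 : (fun n => low b ψ n * ∏ j ∈ range (J + 1), ∑ o ∈ O, w j o * blk b j (φ j o) n) =
        fun n => ∑ x ∈ X, W x * mf (Φ x) n := funext hexp
    rw [h1, SS_sum hSb1, Finset.prod_range, Finset.prod_univ_sum, Finset.mul_sum]
    refine Finset.sum_congr rfl fun x hx => ?_
    rw [SS_const_mul, (hep x hx).2, Finset.prod_mul_distrib]
    ring

end Pool.Agent.Q65.KZ
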